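import Mathlib

/-!
# Representatives of residues modulo `n`, sums of two groups of residues

`v x` is the representative of `x : ZMod n` in `{0, ..., n - 1}`, as an integer. For a group of residues
`x₀`, `f i` let `T x₀ f j = v (j x₀) + ∑ i, v (j f i)`.
-/

set_option autoImplicit false
set_option linter.unusedSectionVars false

namespace Pool.Agent.U68.TP

open Finset

variable {n : ℕ} [NeZero n]

/-- the representative of a residue -/
def v (x : ZMod n) : ℤ := (x.val : ℤ)

theorem v_nonneg (x : ZMod n) : 0 ≤ v x := Int.natCast_nonneg _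

theorem v_lt (x : ZMod n) : v x < n := by
  unfold v
  exact_mod_cast ZMod.val_lt x

omit [NeZero n] in
theorem v_zero : v (0 : ZMod n) = 0 := by simp [v]

theorem v_eq_zero {x : ZMod n} : v x = 0 ↔ x = 0 := by
  unfold v
  rw [Int.natCast_eq_zero, ZMod.val_eq_zero]

theorem v_pos {x : ZMod n} (h : x ≠ 0) : 0 < v x :=
  lt_of_le_of_ne (v_nonneg x) fun h1 => h (v_eq_zero.mp h1.symm)

theorem n_pos : (0 : ℤ) < n := by
  exact_mod_cast Nat.pos_of_ne_zero (NeZero.ne n)

theorem v_cast (x : ZMod n) : ((v x : ℤ) : ZMod n) = x := by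
  unfold v
  rw [Int.cast_natCast, ZMod.natCast_zmod_val]

theorem dvd_of_cast {z : ℤ} (h : ((z : ℤ) : ZMod n) = 0) : (n : ℤ) ∣ z :=
  (ZMod.intCast_zmod_eq_zero_iff_dvd z n).mp h

/-- an integer which is congruent to a residue and lies in the right interval -/
theorem eq_v {x : ZMod n} {z : ℤ} (h : ((z : ℤ) : ZMod n) = x) (h0 : 0 ≤ z) (h1 : z < n) :
    z = v x := by
  have h2 : (n : ℤ) ∣ z - v x := dvd_of_cast (by push_cast; rw [h, v_cast, sub_self])
  obtain ⟨c, hc⟩ := h2
  have h3 := v_nonneg x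
  have h4 := v_lt x
  have hn := n_pos (n := n)
  have h5 : c = 0 := by
    by_contra hne
    rcases lt_or_gt_of_ne hne with h6 | h6
    · have : (n : ℤ) * c ≤ n * (-1) := mul_le_mul_of_nonneg_left (by omega) hn.le
      omega
    · have : (n : ℤ) * 1 ≤ n * c := mul_le_mul_of_nonneg_left (by omega) hn.le
      omega
  rw [h5, mul_zero] at hc
  omega

theorem v_neg {x : ZMod n} (h : x ≠ 0) : v (-x) = n - v x := by
  symm
  apply eq_v
  · push_cast
    rw [v_cast, ZMod.natCast_self, zero_sub]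
  · have := v_lt x
    omega
  · have := v_pos h
    omega

theorem v_add_of_lt {x y : ZMod n} (h : v x + v y < n) : v (x + y) = v x + v y := by
  symm
  apply eq_v
  · push_cast
    rw [v_cast, v_cast]
  · have := v_nonneg x
    have := v_nonneg y
    omega
  · exact h

theorem v_add_of_ge {x y : ZMod n} (h : (n : ℤ) ≤ v x + v y) : v (x + y) = v x + v y - n := by
  symm
  apply eq_v
  · push_cast
    rw [v_cast, v_cast, ZMod.natCast_self, sub_zero]
  · omega
  · have := v_lt x
    have := v_lt y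
    omega

/-- the carry -/
def wr (x y : ZMod n) : ℤ := if v x + v y < n then 0 else 1

theorem wr_nonneg (x y : ZMod n) : 0 ≤ wr x y := by
  unfold wr
  split_ifs <;> norm_num

theorem wr_le (x y : ZMod n) : wr x y ≤ 1 := by
  unfold wr
  split_ifs <;> norm_num

theorem wr_zero {x y : ZMod n} (h : wr x y ≤ 0) : v x + v y < n := by
  unfold wr at h
  split_ifs at h with h1
  · exact h1
  · norm_num at h

theorem wr_pos {x y : ZMod n} (h : 0 < wr x y) : (n : ℤ) ≤ v x + v y := by
  unfold wr at h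
  split_ifs at h with h1
  · norm_num at h
  · exact not_lt.mp h1

theorem wr_eq_one {x y : ZMod n} (h : (n : ℤ) ≤ v x + v y) : wr x y = 1 := by
  unfold wr
  rw [if_neg (not_lt.mpr h)]

theorem wr_eq_zero {x y : ZMod n} (h : v x + v y < n) : wr x y = 0 := by
  unfold wr
  rw [if_pos h]

theorem v_add (x y : ZMod n) : v (x + y) = v x + v y - n * wr x y := by
  by_cases h : v x + v y < n
  · rw [v_add_of_lt h, wr_eq_zero h]
    ring
  · rw [v_add_of_ge (not_lt.mp h), wr_eq_one (not_lt.mp h)]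
    ring

/-- if the sum of a residue and a nonzero residue is zero there is a carry -/
theorem wr_of_zero {x y : ZMod n} (h : x + y = 0) (hy : y ≠ 0) : wr x y = 1 := by
  apply wr_eq_one
  by_contra h1
  have h2 := v_add_of_lt (not_le.mp h1)
  rw [h, v_zero] at h2
  have := v_pos hy
  have := v_nonneg x
  omega

section sums

variable {F : Type} [Fintype F]

/-- the sum of the representatives of the multiples -/
def T (x₀ : ZMod n) (f : F → ZMod n) (j : ZMod n) : ℤ := v (j * x₀) + ∑ i, v (j * f i)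

theorem T_nonneg (x₀ : ZMod n) (f : F → ZMod n) (j : ZMod n) : 0 ≤ T x₀ f j :=
  add_nonneg (v_nonneg _) (Finset.sum_nonneg fun _ _ => v_nonneg _)

theorem T_cast (x₀ : ZMod n) (f : F → ZMod n) (j : ZMod n) :
    ((T x₀ f j : ℤ) : ZMod n) = j * (x₀ + ∑ i, f i) := by
  unfold T
  push_cast
  rw [v_cast, mul_add, Finset.mul_sum]
  congr 1
  exact Finset.sum_congr rfl fun i _ => v_cast _

/-- the number of carries -/
def W (x₀ : ZMod n) (f : F → ZMod n) (j : ZMod n) : ℤ := wr (j * x₀) x₀ + ∑ i, wr (j * f i) (f i)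

theorem W_nonneg (x₀ : ZMod n) (f : F → ZMod n) (j : ZMod n) : 0 ≤ W x₀ f j :=
  add_nonneg (wr_nonneg _ _) (Finset.sum_nonneg fun _ _ => wr_nonneg _ _)

theorem T_step (x₀ : ZMod n) (f : F → ZMod n) (j : ZMod n) :
    T x₀ f (j + 1) = T x₀ f j + T x₀ f 1 - n * W x₀ f j := by
  unfold T W
  have h1 : ∀ x : ZMod n, v ((j + 1) * x) = v (j * x) + v (1 * x) - n * wr (j * x) x := by
    intro x
    rw [add_mul, one_mul]
    exact v_add _ _
  rw [h1, Finset.sum_congr rfl fun i _ => h1 (f i), Finset.sum_sub_distrib, Finset.sum_add_distrib,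
    ← Finset.mul_sum]
  ring

theorem W_zero_x {x₀ : ZMod n} {f : F → ZMod n} {j : ZMod n} (h : W x₀ f j ≤ 0) :
    v (j * x₀) + v x₀ < n := by
  apply wr_zero
  have := Finset.sum_nonneg fun i (_ : i ∈ (Finset.univ : Finset F)) => wr_nonneg (j * f i) (f i)
  unfold W at h
  omega

theorem W_zero_f {x₀ : ZMod n} {f : F → ZMod n} {j : ZMod n} (h : W x₀ f j ≤ 0) (i : F) :
    v (j * f i) + v (f i) < n := by
  apply wr_zero
  have h1 := Finset.single_le_sum (f := fun i => wr (j * f i) (f i))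
    (fun i (_ : i ∈ (Finset.univ : Finset F)) => wr_nonneg (j * f i) (f i)) (Finset.mem_univ i)
  have h2 := wr_nonneg (j * x₀) x₀
  unfold W at h
  omega

/-- if there is at most one carry and it is at `i`, there is none at `x₀` -/
theorem W_one_x {x₀ : ZMod n} {f : F → ZMod n} {j : ZMod n} (h : W x₀ f j ≤ 1) {i : F}
    (hi : wr (j * f i) (f i) = 1) : v (j * x₀) + v x₀ < n := by
  apply wr_zero
  have h1 := Finset.single_le_sum (f := fun i => wr (j * f i) (f i))
    (fun i (_ : i ∈ (Finset.univ : Finset F)) => wr_nonneg (j * f i) (f i)) (Finset.mem_univ i)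
  unfold W at h
  omega

theorem W_one_f {x₀ : ZMod n} {f : F → ZMod n} {j : ZMod n} (h : W x₀ f j ≤ 1) {i l : F}
    (hi : wr (j * f i) (f i) = 1) (hl : l ≠ i) : v (j * f l) + v (f l) < n := by
  classical
  apply wr_zero
  have h1 := Finset.sum_le_sum_of_subset_of_nonneg (f := fun i => wr (j * f i) (f i))
    (Finset.subset_univ ({l, i} : Finset F)) (fun i _ _ => wr_nonneg (j * f i) (f i))
  rw [Finset.sum_pair hl] at h1
  have h2 := wr_nonneg (j * x₀) x₀
  unfold W at h
  omega

/-- one if the residue is not zero -/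
def nzr (x : ZMod n) : ℤ := if x = 0 then 0 else 1

theorem nzr_nonneg (x : ZMod n) : 0 ≤ nzr x := by
  unfold nzr
  split_ifs <;> norm_num

theorem nzr_of_ne {x : ZMod n} (h : x ≠ 0) : nzr x = 1 := by
  unfold nzr
  rw [if_neg h]

theorem v_add_neg (x : ZMod n) : v x + v (-x) = n * nzr x := by
  unfold nzr
  split_ifs with h
  · rw [h, neg_zero, v_zero]
    ring
  · rw [v_neg h]
    ring

/-- the number of the nonzero multiples -/
def nz (x₀ : ZMod n) (f : F → ZMod n) (j : ZMod n) : ℤ := nzr (j * x₀) + ∑ i, nzr (j * f i)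

theorem T_neg (x₀ : ZMod n) (f : F → ZMod n) (j : ZMod n) :
    T x₀ f (-j) = n * nz x₀ f j - T x₀ f j := by
  unfold T nz
  have h1 : ∀ x : ZMod n, v (-j * x) = n * nzr (j * x) - v (j * x) := by
    intro x
    rw [← v_add_neg, neg_mul]
    ring
  rw [h1, Finset.sum_congr rfl fun i _ => h1 (f i), Finset.sum_sub_distrib, ← Finset.mul_sum]
  ring

theorem one_sub_wr_le {x y : ZMod n} (hy : y ≠ 0) : 1 - wr x y ≤ nzr (x + y) := by
  unfold nzr
  split_ifs with h
  · rw [wr_of_zero h hy]
    norm_num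
  · have := wr_nonneg x y
    omega

theorem nz_ge {x₀ : ZMod n} {f : F → ZMod n} (h0 : x₀ ≠ 0) (hf : ∀ i, f i ≠ 0) (j : ZMod n) :
    1 + Fintype.card F - W x₀ f j ≤ nz x₀ f (j + 1) := by
  unfold W nz
  have h1 : 1 - wr (j * x₀) x₀ ≤ nzr ((j + 1) * x₀) := by
    rw [add_mul, one_mul]
    exact one_sub_wr_le h0
  have h2 : ∑ i : F, (1 - wr (j * f i) (f i)) ≤ ∑ i, nzr ((j + 1) * f i) := by
    apply Finset.sum_le_sum
    intro i _
    rw [add_mul, one_mul]
    exact one_sub_wr_le (hf i)
  rw [Finset.sum_sub_distrib] at h2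
  simp only [Finset.sum_const, Finset.card_univ, nsmul_eq_mul, mul_one] at h2
  omega

theorem nz_le {x₀ : ZMod n} {f : F → ZMod n} (j : ZMod n) : nz x₀ f j ≤ 1 + Fintype.card F := by
  unfold nz
  have h1 : nzr (j * x₀) ≤ 1 := by unfold nzr; split_ifs <;> norm_num
  have h2 : ∑ i : F, nzr (j * f i) ≤ ∑ _i : F, (1 : ℤ) := by
    apply Finset.sum_le_sum
    intro i _
    unfold nzr
    split_ifs <;> norm_num
  simp only [Finset.sum_const, Finset.card_univ, nsmul_eq_mul, mul_one] at h2
  omega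

theorem nz_eq {x₀ : ZMod n} {f : F → ZMod n} {j : ZMod n} (h0 : j * x₀ ≠ 0)
    (hf : ∀ i, j * f i ≠ 0) : nz x₀ f j = 1 + Fintype.card F := by
  unfold nz
  rw [nzr_of_ne h0, Finset.sum_congr rfl fun i _ => nzr_of_ne (hf i)]
  simp

/-- a sum at most `n` is determined by its residue -/
theorem T_eq {x₀ : ZMod n} {f : F → ZMod n} {j e : ZMod n} (he : j * (x₀ + ∑ i, f i) = e)
    (h : T x₀ f j ≤ n) (h0 : e ≠ 0) : T x₀ f j = v e := by
  apply eq_v
  · rw [T_cast, he]
  · exact T_nonneg _ _ _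
  · apply lt_of_le_of_ne h
    intro h1
    have h2 := T_cast x₀ f j
    rw [h1, he] at h2
    apply h0
    rw [← h2]
    simp

theorem ne_zero_of_lt {x y : ZMod n} (h : v x + v y < n) (hy : y ≠ 0) : x + y ≠ 0 := by
  intro h1
  have h2 := v_add_of_lt h
  rw [h1, v_zero] at h2
  have := v_pos hy
  have := v_nonneg x
  omega

/-- a sum of multiples of positive residues is positive -/
theorem T_pos {x₀ : ZMod n} {f : F → ZMod n} {j : ZMod n} (h : 0 < nz x₀ f j) :
    0 < T x₀ f j := by
  have h1 := T_nonneg x₀ f j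
  rcases h1.lt_or_eq with h2 | h2
  · exact h2
  · exfalso
    unfold T at h2
    have h3 : v (j * x₀) = 0 ∧ ∀ i, v (j * f i) = 0 := by
      have h4 := Finset.sum_nonneg fun i (_ : i ∈ (Finset.univ : Finset F)) => v_nonneg (j * f i)
      have h5 := v_nonneg (j * x₀)
      refine ⟨by omega, fun i => ?_⟩
      have h6 := Finset.single_le_sum (f := fun i => v (j * f i))
        (fun i (_ : i ∈ (Finset.univ : Finset F)) => v_nonneg (j * f i)) (Finset.mem_univ i)
      have h7 := v_nonneg (j * f i)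
      omega
    have h4 : nz x₀ f j = 0 := by
      unfold nz nzr
      rw [if_pos (v_eq_zero.mp h3.1), Finset.sum_eq_zero]
      · rfl
      · intro i _
        rw [if_pos (v_eq_zero.mp (h3.2 i))]
    omega

end sums

end Pool.Agent.U68.TP
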