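import Pool.Agent.U68.TP.Red

/-!
# The numerical lemma for the plane blown up at two points

For weights `w i` and residues `a i` let `Ph w a j = v (j e) + ∑ i, w i v (j a i)` with
`e = - ∑ i, w i a i`. Let `p i, q i ≤ d i ≤ p i + q i`, let `Ph p a j ≤ n` or `Ph q a j ≤ n` or
`Ph d a j ≤ 2 n` for all `j`, and let `Ph p a 1 + Ph p a (-1)` and `Ph q a 1 + Ph q a (-1)` be at least
`4 n`. Then `Ph d a 1` and `Ph d a (-1)` are at most `2 n`.
-/

set_option autoImplicit false
set_option linter.unusedSectionVars false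
set_option linter.unusedVariables false

namespace Pool.Agent.U68.TP

open Finset

variable {n : ℕ} [NeZero n] {ι : Type} [Fintype ι]

/-- the sum of the representatives with weights -/
def Ph (w : ι → ℕ) (a : ι → ZMod n) (j : ZMod n) : ℤ :=
  v (j * -∑ i, w i • a i) + ∑ i, w i • v (j * a i)

theorem sum_nonneg' (w : ι → ℕ) (g : ι → ZMod n) : 0 ≤ ∑ i, w i • v (g i) :=
  Finset.sum_nonneg fun i _ => nsmul_nonneg (v_nonneg _) _

theorem Ph_nonneg (w : ι → ℕ) (a : ι → ZMod n) (j : ZMod n) : 0 ≤ Ph w a j :=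
  add_nonneg (v_nonneg _) (sum_nonneg' _ _)

theorem cast_sum' (w : ι → ℕ) (a : ι → ZMod n) (j : ZMod n) :
    ((∑ i, w i • v (j * a i) : ℤ) : ZMod n) = j * ∑ i, w i • a i := by
  rw [Int.cast_sum, Finset.mul_sum]
  apply Finset.sum_congr rfl
  intro i _
  simp only [nsmul_eq_mul]
  push_cast
  rw [v_cast]
  ring

theorem Ph_dvd (w : ι → ℕ) (a : ι → ZMod n) (j : ZMod n) : (n : ℤ) ∣ Ph w a j := by
  apply dvd_of_cast
  unfold Ph
  rw [Int.cast_add, cast_sum', v_cast]
  ring

theorem Ph_lt {w : ι → ℕ} {a : ι → ZMod n} {j : ZMod n} (c : ℤ) (h : n * c < Ph w a j) :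
    n * (c + 1) ≤ Ph w a j := by
  obtain ⟨t, ht⟩ := Ph_dvd w a j
  have hn := n_pos (n := n)
  rw [ht] at h ⊢
  have h1 : c < t := lt_of_mul_lt_mul_left h hn.le
  exact mul_le_mul_of_nonneg_left h1 hn.le

theorem v_add_le (x y : ZMod n) : v (x + y) ≤ v x + v y := by
  rw [v_add]
  have := mul_nonneg (n_pos (n := n)).le (wr_nonneg x y)
  omega

theorem v_add_mul_le (j j' x : ZMod n) : v ((j + j') * x) ≤ v (j * x) + v (j' * x) := by
  rw [add_mul]
  exact v_add_le _ _

theorem Ph_add_le (w : ι → ℕ) (a : ι → ZMod n) (j j' : ZMod n) :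
    Ph w a (j + j') ≤ Ph w a j + Ph w a j' := by
  unfold Ph
  have h1 := v_add_mul_le j j' (-∑ i, w i • a i)
  have h2 : ∑ i, w i • v ((j + j') * a i) ≤ ∑ i, w i • v (j * a i) + ∑ i, w i • v (j' * a i) := by
    rw [← Finset.sum_add_distrib]
    apply Finset.sum_le_sum
    intro i _
    rw [← nsmul_add]
    exact nsmul_le_nsmul_right (v_add_mul_le _ _ _) _
  omega

theorem Ph_add_eq {w : ι → ℕ} {a : ι → ZMod n} {j j' : ZMod n}
    (h : Ph w a j + Ph w a j' ≤ Ph w a (j + j')) {i : ι} (hi : w i ≠ 0) :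
    v ((j + j') * a i) = v (j * a i) + v (j' * a i) := by
  unfold Ph at h
  have h1 := v_add_mul_le j j' (-∑ i, w i • a i)
  have h2 : ∀ i ∈ (Finset.univ : Finset ι), w i • v ((j + j') * a i) ≤
      w i • v (j * a i) + w i • v (j' * a i) := by
    intro i _
    rw [← nsmul_add]
    exact nsmul_le_nsmul_right (v_add_mul_le _ _ _) _
  have h3 : ∑ i, w i • v ((j + j') * a i) = ∑ i, (w i • v (j * a i) + w i • v (j' * a i)) := by
    apply le_antisymm (Finset.sum_le_sum h2)
    rw [Finset.sum_add_distrib]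
    omega
  have h4 := (Finset.sum_eq_sum_iff_of_le h2).mp h3 i (Finset.mem_univ i)
  rw [← nsmul_add] at h4
  simp only [nsmul_eq_mul] at h4
  exact mul_left_cancel₀ (by exact_mod_cast hi) h4

theorem Ph_le {p d : ι → ℕ} (h : ∀ i, p i ≤ d i) (a : ι → ZMod n) (j : ZMod n) :
    Ph p a j ≤ Ph d a j := by
  have h1 : v (j * -∑ i, p i • a i) ≤ v (j * -∑ i, d i • a i) + ∑ i, (d i - p i) • v (j * a i) := by
    apply le_of_cast
    · rw [Int.cast_add, v_cast, cast_sum']
      have h2 : ∑ i, (d i - p i) • a i = ∑ i, d i • a i - ∑ i, p i • a i := by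
        rw [← Finset.sum_sub_distrib]
        apply Finset.sum_congr rfl
        intro i _
        rw [sub_nsmul _ (h i), sub_eq_add_neg]
      rw [h2]
      ring
    · exact add_nonneg (v_nonneg _) (sum_nonneg' _ _)
  have h3 : ∑ i, (d i - p i) • v (j * a i) = ∑ i, d i • v (j * a i) - ∑ i, p i • v (j * a i) := by
    rw [← Finset.sum_sub_distrib]
    apply Finset.sum_congr rfl
    intro i _
    rw [sub_nsmul _ (h i), sub_eq_add_neg]
  unfold Ph
  omega

theorem Ph_neg (w : ι → ℕ) (a : ι → ZMod n) (j : ZMod n) :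
    Ph w (fun i => -a i) j = Ph w a (-j) := by
  unfold Ph
  simp only [nsmul_eq_mul, mul_neg, neg_mul, Finset.sum_neg_distrib]

/-- the total degree -/
theorem Ph_total (w : ι → ℕ) (a : ι → ZMod n) (j : ZMod n) :
    Ph w a j + Ph w a (-j) =
      n * (nzr (j * -∑ i, w i • a i) + ∑ i, w i • nzr (j * a i)) := by
  unfold Ph
  have h1 := v_add_neg (j * -∑ i, w i • a i)
  have h2 : ∑ i, w i • v (j * a i) + ∑ i, w i • v (-j * a i) = n * ∑ i, w i • nzr (j * a i) := by
    rw [← Finset.sum_add_distrib, Finset.mul_sum]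
    apply Finset.sum_congr rfl
    intro i _
    rw [← nsmul_add, neg_mul, v_add_neg]
    simp only [nsmul_eq_mul]
    ring
  rw [mul_add, ← h1, ← h2, neg_mul]
  ring

section reduction

variable [DecidableEq ι]

/-- the weights with one point removed at `h` -/
def pr (p : ι → ℕ) (a : ι → ZMod n) (h : ι) (i : ι) : ℕ :=
  if a i = 0 then 0 else if i = h then p i - 1 else p i

theorem sum_pr {R : Type} [AddCommGroup R] {p : ι → ℕ} {a : ι → ZMod n} {h : ι} (hp : p h ≠ 0)
    (ha : a h ≠ 0) (g : ι → R) (hg : ∀ i, a i = 0 → g i = 0) :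
    ∑ i, pr p a h i • g i = ∑ i, p i • g i - g h := by
  have h1 : ∑ i, p i • g i = ∑ i, (pr p a h i • g i + if i = h then g h else 0) := by
    apply Finset.sum_congr rfl
    intro i _
    unfold pr
    by_cases hi : i = h
    · subst hi
      rw [if_neg ha, if_pos rfl, if_pos rfl]
      obtain ⟨c, hc⟩ : ∃ c, p i = c + 1 := ⟨p i - 1, by omega⟩
      rw [hc, Nat.add_sub_cancel, add_nsmul, one_nsmul]
    · by_cases h0 : a i = 0
      · rw [hg i h0]
        simp [hi]
      · rw [if_neg h0, if_neg hi, if_neg hi, add_zero]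
  rw [h1, Finset.sum_add_distrib, Finset.sum_ite_eq' Finset.univ h, if_pos (Finset.mem_univ _)]
  abel

/-- a sum over the points -/
theorem sum_points {R : Type} [AddCommMonoid R] (w : ι → ℕ) (g : ι → R) :
    ∑ x : (Σ i : ι, Fin (w i)), g x.1 = ∑ i, w i • g i := by
  rw [Fintype.sum_sigma]
  apply Finset.sum_congr rfl
  intro i _
  simp

end reduction

/-- the core of the numerical lemma -/
theorem core {p q d : ι → ℕ} {a : ι → ZMod n} (hp : ∀ i, p i ≤ d i) (hq : ∀ i, q i ≤ d i)
    (hd : ∀ i, d i ≤ p i + q i)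
    (hol : ∀ j : ZMod n, Ph p a j ≤ n ∨ Ph q a j ≤ n ∨ Ph d a j ≤ 2 * n)
    (hP : 4 * n ≤ Ph p a 1 + Ph p a (-1)) (hQ : 4 * n ≤ Ph q a 1 + Ph q a (-1))
    (P1 : Ph p a 1 ≤ n) (Q1 : Ph q a (-1) ≤ n) {k : ZMod n} (Pk : Ph p a k ≤ n)
    (Qk : Ph q a (-k) ≤ n) (hm : (n : ℤ) < Ph p a (k + 1)) : False := by
  classical
  have hn := n_pos (n := n)
  have hPm2 : 2 * n ≤ Ph p a (k + 1) := by
    have := Ph_lt (w := p) (a := a) (j := k + 1) 1 (by omega)
    omega
  have sQ := Ph_add_le q a (k + 1) (-k)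
  rw [show k + 1 + -k = (1 : ZMod n) by ring] at sQ
  have sP := Ph_add_le p a k 1
  have hD : Ph d a (k + 1) ≤ 2 * n := by
    rcases hol (k + 1) with h | h | h
    · omega
    · omega
    · exact h
  have lp := Ph_le hp a (k + 1)
  have lq := Ph_le hq a (k + 1)
  -- the exact values
  have eP : Ph p a (k + 1) = 2 * n := by omega
  have eQ : Ph q a (k + 1) = 2 * n := by omega
  have eD : Ph d a (k + 1) = 2 * n := by omega
  have eP1 : Ph p a 1 = n := by omega
  have ePk : Ph p a k = n := by omega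
  have eQ1 : Ph q a 1 = 3 * n := by omega
  have eQk : Ph q a (-k) = n := by omega
  have eQn : Ph q a (-1) = n := by omega
  have ncP : ∀ i, p i ≠ 0 → v ((k + 1) * a i) = v (k * a i) + v (1 * a i) := fun i hi =>
    Ph_add_eq (by omega) hi
  have ncQ : ∀ i, q i ≠ 0 → v (1 * a i) = v ((k + 1) * a i) + v (-k * a i) := by
    intro i hi
    have h1 := Ph_add_eq (w := q) (a := a) (j := k + 1) (j' := -k) (i := i)
      (by rw [show k + 1 + -k = (1 : ZMod n) by ring]; omega) hi
    rwa [show k + 1 + -k = (1 : ZMod n) by ring] at h1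
  have both : ∀ i, p i ≠ 0 → q i ≠ 0 → v ((k + 1) * a i) = v (1 * a i) := by
    intro i h1 h2
    have h3 := ncP i h1
    have h4 := ncQ i h2
    have h5 := v_nonneg (k * a i)
    have h6 := v_nonneg (-k * a i)
    omega
  -- the main inequality
  have dl : ∑ i, p i • v ((k + 1) * a i) + ∑ i, q i • v ((k + 1) * a i) ≤
      ∑ i, d i • v ((k + 1) * a i) + ∑ i, p i • v (1 * a i) := by
    rw [← Finset.sum_add_distrib, ← Finset.sum_add_distrib]
    apply Finset.sum_le_sum
    intro i _
    have hV := v_nonneg ((k + 1) * a i)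
    have hU := v_nonneg (1 * a i)
    simp only [nsmul_eq_mul]
    have h1 : (q i : ℤ) ≤ d i := by exact_mod_cast hq i
    have h2 : (p i : ℤ) ≤ d i := by exact_mod_cast hp i
    by_cases hpi : p i = 0
    · rw [hpi]
      have := mul_le_mul_of_nonneg_right h1 hV
      simp only [Nat.cast_zero, zero_mul]
      omega
    · by_cases hqi : q i = 0
      · rw [hqi]
        have := mul_le_mul_of_nonneg_right h2 hV
        have := mul_nonneg (Int.natCast_nonneg (p i)) hU
        simp only [Nat.cast_zero, zero_mul]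
        omega
      · rw [both i hpi hqi]
        have := mul_le_mul_of_nonneg_right h1 hU
        omega
  have uP := eP
  have uQ := eQ
  have uD := eD
  have uP1 := eP1
  have uQn := eQn
  unfold Ph at uP uQ uD uP1 uQn
  have z1 := v_nonneg ((k + 1) * -∑ i, d i • a i)
  have z2 := v_lt ((k + 1) * -∑ i, p i • a i)
  have z3 := v_lt ((k + 1) * -∑ i, q i • a i)
  have he1 : -∑ i, p i • a i ≠ 0 := by
    intro h
    rw [h, mul_zero, v_zero] at uP uP1
    omega
  have he2 : -∑ i, q i • a i ≠ 0 := by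
    intro h
    rw [h, mul_zero, v_zero] at uQ
    have := v_nonneg (1 * -∑ i, p i • a i)
    omega
  have ve1 : 0 < v (1 * -∑ i, p i • a i) := by
    rw [one_mul]
    exact v_pos he1
  have ve2 : 0 < v (-1 * -∑ i, q i • a i) := by
    apply v_pos
    rw [neg_mul, one_mul]
    exact neg_ne_zero.mpr he2
  -- a branch curve through both points
  have hex : ∃ h, d h < p h + q h ∧ a h ≠ 0 := by
    by_contra hcon
    push Not at hcon
    have h1 : ∑ i, d i • v ((k + 1) * a i) =
        ∑ i, p i • v ((k + 1) * a i) + ∑ i, q i • v ((k + 1) * a i) := by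
      rw [← Finset.sum_add_distrib]
      apply Finset.sum_congr rfl
      intro i _
      rcases (hd i).lt_or_eq with h2 | h2
      · rw [hcon i h2, mul_zero, v_zero]
        simp
      · rw [h2, add_nsmul]
    omega
  obtain ⟨h, hh, hah⟩ := hex
  have hph : p h ≠ 0 := by
    have := hq h
    omega
  have hqh : q h ≠ 0 := by
    have := hp h
    omega
  have hU : ∀ i, a i ≠ 0 → v (1 * a i) + v (-1 * a i) = n := by
    intro i hi
    rw [neg_mul, v_add_neg, one_mul, nzr_of_ne hi, mul_one]
  -- it is the only one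
  have huniq : ∀ i, i ≠ h → a i ≠ 0 → d i = p i + q i := by
    intro i hi hai
    by_cases hpi : p i = 0
    · have := hd i
      have := hq i
      omega
    by_cases hqi : q i = 0
    · have := hd i
      have := hp i
      omega
    exfalso
    have h1 := Finset.sum_le_sum_of_subset_of_nonneg (f := fun i => p i • v (1 * a i))
      (Finset.subset_univ ({i, h} : Finset ι)) (fun i _ _ => nsmul_nonneg (v_nonneg _) _)
    have h2 := Finset.sum_le_sum_of_subset_of_nonneg (f := fun i => q i • v (-1 * a i))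
      (Finset.subset_univ ({i, h} : Finset ι)) (fun i _ _ => nsmul_nonneg (v_nonneg _) _)
    rw [Finset.sum_pair hi] at h1 h2
    simp only [nsmul_eq_mul] at h1 h2 uP1 uQn ve1 ve2
    have g : ∀ (w : ℕ) (z : ℤ), w ≠ 0 → 0 ≤ z → z ≤ w * z := by
      intro w z hw hz
      have : (1 : ℤ) ≤ w := by exact_mod_cast Nat.pos_of_ne_zero hw
      nlinarith
    have a1 := g (p i) _ hpi (v_nonneg (1 * a i))
    have a2 := g (q i) _ hqi (v_nonneg (-1 * a i))
    have a3 := g (p h) _ hph (v_nonneg (1 * a h))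
    have a4 := g (q h) _ hqh (v_nonneg (-1 * a h))
    have b1 := hU i hai
    have b2 := hU h hah
    omega
  have hdh : d h + 1 = p h + q h := by
    have hmin : p h = 1 ∨ q h = 1 := by
      by_contra hcon
      push Not at hcon
      have h1 := Finset.single_le_sum (f := fun i => p i • v (1 * a i))
        (fun i (_ : i ∈ (Finset.univ : Finset ι)) => nsmul_nonneg (v_nonneg (1 * a i)) _)
        (Finset.mem_univ h)
      have h2 := Finset.single_le_sum (f := fun i => q i • v (-1 * a i))
        (fun i (_ : i ∈ (Finset.univ : Finset ι)) => nsmul_nonneg (v_nonneg (-1 * a i)) _)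
        (Finset.mem_univ h)
      simp only [nsmul_eq_mul] at h1 h2 uP1 uQn ve1 ve2
      have g : ∀ (w : ℕ) (z : ℤ), 2 ≤ w → 0 ≤ z → 2 * z ≤ w * z := by
        intro w z hw hz
        have : (2 : ℤ) ≤ w := by exact_mod_cast hw
        nlinarith
      have a3 := g (p h) _ (by omega) (v_nonneg (1 * a h))
      have a4 := g (q h) _ (by omega) (v_nonneg (-1 * a h))
      have b2 := hU h hah
      omega
    have := hp h
    have := hq h
    omega
  -- the reduction
  have hcard : ∀ w : ι → ℕ, w h ≠ 0 → 4 * n ≤ Ph w a 1 + Ph w a (-1) →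
      2 ≤ ∑ i, pr w a h i := by
    intro w hw h4
    rw [Ph_total] at h4
    have h5 : (4 : ℤ) ≤ nzr (1 * -∑ i, w i • a i) + ∑ i, w i • nzr (1 * a i) := by
      have h6 : (n : ℤ) * 4 ≤ n * (nzr (1 * -∑ i, w i • a i) + ∑ i, w i • nzr (1 * a i)) := by
        omega
      exact le_of_mul_le_mul_left h6 hn
    have h7 := sum_pr (R := ℤ) hw hah (fun i => nzr (1 * a i)) (fun i hi => by
      simp [hi, nzr])
    have h8 : ∑ i, pr w a h i • nzr (1 * a i) = ((∑ i, pr w a h i : ℕ) : ℤ) := by
      rw [Nat.cast_sum]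
      apply Finset.sum_congr rfl
      intro i _
      by_cases hi : a i = 0
      · unfold pr
        rw [if_pos hi]
        simp
      · rw [one_mul, nzr_of_ne hi]
        simp
    have h9 : nzr (1 * a h) = 1 := by rw [one_mul, nzr_of_ne hah]
    have h10 : nzr (1 * -∑ i, w i • a i) ≤ 1 := by
      unfold nzr
      split_ifs <;> norm_num
    omega
  have key : Sys (n := n) (F := Σ i : ι, Fin (pr p a h i)) (B := Σ i : ι, Fin (pr q a h i))
      (-∑ i, p i • a i) (fun x => a x.1) (∑ i, q i • a i) (fun x => -a x.1) (-a h) := by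
    have s1 : ∀ j : ZMod n, ∑ x : (Σ i : ι, Fin (pr p a h i)), v (j * a x.1) =
        ∑ i, p i • v (j * a i) - v (j * a h) := by
      intro j
      rw [sum_points (pr p a h) (fun i => v (j * a i)),
        sum_pr hph hah (fun i => v (j * a i)) (fun i hi => by rw [hi, mul_zero, v_zero])]
    have s2 : ∀ j : ZMod n, ∑ x : (Σ i : ι, Fin (pr q a h i)), v (j * a x.1) =
        ∑ i, q i • v (j * a i) - v (j * a h) := by
      intro j
      rw [sum_points (pr q a h) (fun i => v (j * a i)),
        sum_pr hqh hah (fun i => v (j * a i)) (fun i hi => by rw [hi, mul_zero, v_zero])]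
    have s3 : ∀ j : ZMod n, ∑ x : (Σ i : ι, Fin (pr q a h i)), v (j * -a x.1) =
        ∑ i, q i • v (-j * a i) - v (-j * a h) := by
      intro j
      rw [← s2]
      apply Finset.sum_congr rfl
      intro x _
      rw [mul_neg, neg_mul]
    have t1 : ∑ x : (Σ i : ι, Fin (pr p a h i)), a x.1 = ∑ i, p i • a i - a h := by
      rw [sum_points (pr p a h) a, sum_pr hph hah a (fun i hi => hi)]
    have t2 : ∑ x : (Σ i : ι, Fin (pr q a h i)), -a x.1 = a h - ∑ i, q i • a i := by
      rw [Finset.sum_neg_distrib, sum_points (pr q a h) a, sum_pr hqh hah a (fun i hi => hi)]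
      ring
    have T1' : ∀ j : ZMod n, T (-∑ i, p i • a i)
        (fun x : (Σ i : ι, Fin (pr p a h i)) => a x.1) j = Ph p a j - v (j * a h) := by
      intro j
      unfold T Ph
      rw [s1]
      ring
    have T2' : ∀ j : ZMod n, T (∑ i, q i • a i)
        (fun x : (Σ i : ι, Fin (pr q a h i)) => -a x.1) j = Ph q a (-j) - v (-j * a h) := by
      intro j
      unfold T Ph
      rw [s3, show -j * -∑ i, q i • a i = j * ∑ i, q i • a i by ring]
      ring
    refine ⟨?_, ?_, he1, ?_, ?_, ?_, neg_ne_zero.mpr hah, ?_, ?_, ?_, ?_, ?_⟩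
    · rw [t1]
      ring
    · rw [t2]
      ring
    · exact neg_ne_zero.mp he2
    · rintro ⟨i, x⟩ h0
      have h0' : a i = 0 := h0
      have : pr p a h i = 0 := by
        unfold pr
        rw [if_pos h0']
      rw [this] at x
      exact x.elim0
    · rintro ⟨i, x⟩ h0
      have h0' : a i = 0 := neg_eq_zero.mp h0
      have : pr q a h i = 0 := by
        unfold pr
        rw [if_pos h0']
      rw [this] at x
      exact x.elim0
    · rw [Fintype.card_sigma]
      simp only [Fintype.card_fin]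
      exact hcard p hph hP
    · rw [Fintype.card_sigma]
      simp only [Fintype.card_fin]
      exact hcard q hqh hQ
    · intro j
      rw [T1', T2', neg_neg]
      have w0 := v_nonneg (j * a h)
      rcases hol j with h1 | h1 | h1
      · left
        omega
      · right; left
        omega
      · right; right
        refine le_trans (le_of_eq ?_) h1
        have r1 : ∑ i, d i • a i = ∑ i, p i • a i + ∑ i, q i • a i - a h := by
          have r2 : ∑ i, p i • a i + ∑ i, q i • a i =
              ∑ i, (d i • a i + if i = h then a h else 0) := by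
            rw [← Finset.sum_add_distrib]
            apply Finset.sum_congr rfl
            intro i _
            by_cases hi : i = h
            · subst hi
              rw [if_pos rfl, ← add_nsmul, ← hdh, add_nsmul, one_nsmul]
            · rw [if_neg hi, add_zero]
              by_cases hai : a i = 0
              · rw [hai]
                simp
              · rw [huniq i hi hai, add_nsmul]
          rw [r2, Finset.sum_add_distrib, Finset.sum_ite_eq' Finset.univ h,
            if_pos (Finset.mem_univ _)]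
          ring
        have r3 : ∑ i, d i • v (j * a i) =
            ∑ i, p i • v (j * a i) + ∑ i, q i • v (j * a i) - v (j * a h) := by
          have r2 : ∑ i, p i • v (j * a i) + ∑ i, q i • v (j * a i) =
              ∑ i, (d i • v (j * a i) + if i = h then v (j * a h) else 0) := by
            rw [← Finset.sum_add_distrib]
            apply Finset.sum_congr rfl
            intro i _
            by_cases hi : i = h
            · subst hi
              rw [if_pos rfl, ← add_nsmul, ← hdh, add_nsmul, one_nsmul]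
            · rw [if_neg hi, add_zero]
              by_cases hai : a i = 0
              · rw [hai, mul_zero, v_zero]
                simp
              · rw [huniq i hi hai, add_nsmul]
          rw [r2, Finset.sum_add_distrib, Finset.sum_ite_eq' Finset.univ h,
            if_pos (Finset.mem_univ _)]
          ring
        unfold Ph
        rw [s1, s3, t2, neg_neg, show -j * -a h = j * a h by ring, r1, r3,
          show j * (-∑ i, p i • a i + (a h - ∑ i, q i • a i)) =
            j * -(∑ i, p i • a i + ∑ i, q i • a i - a h) by ring]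
        ring
    · rw [T1']
      have := v_nonneg (1 * a h)
      omega
    · rw [T2']
      have := v_nonneg (-1 * a h)
      omega
  exact key.main

/-- the numerical lemma, one side -/
theorem gen_one {p q d : ι → ℕ} {a : ι → ZMod n} (hp : ∀ i, p i ≤ d i) (hq : ∀ i, q i ≤ d i)
    (hd : ∀ i, d i ≤ p i + q i)
    (hol : ∀ j : ZMod n, Ph p a j ≤ n ∨ Ph q a j ≤ n ∨ Ph d a j ≤ 2 * n)
    (hP : 4 * n ≤ Ph p a 1 + Ph p a (-1)) (hQ : 4 * n ≤ Ph q a 1 + Ph q a (-1))
    (P1 : Ph p a 1 ≤ n) (Q1 : Ph q a (-1) ≤ n) : False := by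
  classical
  have hn := n_pos (n := n)
  have hex : ∃ j : ℕ, 1 ≤ j ∧ ¬ (Ph p a j ≤ n ∧ Ph q a (-(j : ZMod n)) ≤ n) := by
    refine ⟨2 * n - 1, by omega, ?_⟩
    intro h
    have h1 : ((2 * n - 1 : ℕ) : ZMod n) = -1 := by
      rw [Nat.cast_sub (by omega)]
      simp
    rw [h1] at h
    omega
  have hm := Nat.find_spec hex
  have hmin : ∀ j : ℕ, 1 ≤ j → j < Nat.find hex →
      Ph p a j ≤ n ∧ Ph q a (-(j : ZMod n)) ≤ n := by
    intro j hj h
    by_contra h1
    exact Nat.find_min hex h ⟨hj, h1⟩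
  generalize Nat.find hex = m at hm hmin
  obtain ⟨k, rfl⟩ : ∃ k : ℕ, m = k + 1 := ⟨m - 1, by omega⟩
  have hk : 1 ≤ k := by
    rcases Nat.eq_zero_or_pos k with rfl | h
    · exfalso
      apply hm.2
      simp only [zero_add, Nat.cast_one]
      exact ⟨P1, Q1⟩
    · exact h
  have hA := hmin k hk (by omega)
  have hm2 := hm.2
  push_cast at hm2
  by_cases h1 : (n : ℤ) < Ph p a ((k : ZMod n) + 1)
  · exact core hp hq hd hol hP hQ P1 Q1 hA.1 hA.2 h1
  · have h2 : (n : ℤ) < Ph q a (-((k : ZMod n) + 1)) := by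
      by_contra h3
      exact hm2 ⟨not_lt.mp h1, not_lt.mp h3⟩
    refine core (p := q) (q := p) (d := d) (a := fun i => -a i) (k := (k : ZMod n)) hq hp
      (fun i => by have := hd i; omega) ?_ ?_ ?_ ?_ ?_ ?_ ?_ ?_
    · intro j
      rw [Ph_neg, Ph_neg, Ph_neg]
      rcases hol (-j) with h | h | h
      · exact Or.inr (Or.inl h)
      · exact Or.inl h
      · exact Or.inr (Or.inr h)
    · rw [Ph_neg, Ph_neg, neg_neg]
      omega
    · rw [Ph_neg, Ph_neg, neg_neg]
      omega
    · rw [Ph_neg]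
      exact Q1
    · rw [Ph_neg, neg_neg]
      exact P1
    · rw [Ph_neg]
      exact hA.2
    · rw [Ph_neg, neg_neg]
      exact hA.1
    · rw [Ph_neg]
      exact h2

/-- **The numerical lemma for the plane blown up at two points.** -/
theorem gen {p q d : ι → ℕ} {a : ι → ZMod n} (hp : ∀ i, p i ≤ d i) (hq : ∀ i, q i ≤ d i)
    (hd : ∀ i, d i ≤ p i + q i)
    (hol : ∀ j : ZMod n, Ph p a j ≤ n ∨ Ph q a j ≤ n ∨ Ph d a j ≤ 2 * n)
    (hP : 4 * n ≤ Ph p a 1 + Ph p a (-1)) (hQ : 4 * n ≤ Ph q a 1 + Ph q a (-1)) :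
    Ph d a 1 ≤ 2 * n ∧ Ph d a (-1) ≤ 2 * n := by
  by_contra hcon
  have hn := n_pos (n := n)
  have l1 := Ph_le hp a 1
  have l2 := Ph_le hp a (-1)
  have l3 := Ph_le hq a 1
  have l4 := Ph_le hq a (-1)
  have hol' : ∀ j : ZMod n, Ph q a j ≤ n ∨ Ph p a j ≤ n ∨ Ph d a j ≤ 2 * n := by
    intro j
    rcases hol j with h | h | h
    · exact Or.inr (Or.inl h)
    · exact Or.inl h
    · exact Or.inr (Or.inr h)
  have hd' : ∀ i, d i ≤ q i + p i := fun i => by have := hd i; omega
  have h1 := hol 1
  have h2 := hol (-1)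
  have hor : (Ph p a 1 ≤ n ∧ Ph q a (-1) ≤ n) ∨ (Ph q a 1 ≤ n ∧ Ph p a (-1) ≤ n) := by
    by_contra h3
    apply hcon
    constructor <;> omega
  rcases hor with h | h
  · exact gen_one hp hq hd hol hP hQ h.1 h.2
  · exact gen_one hq hp hd' hol' hQ hP h.1 h.2

end Pool.Agent.U68.TP
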