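import Pool.Agent.U68.TP.Base

/-!
# The reduced numerical lemma

Two groups of at least three nonzero residues modulo `n`: `x₀, f i` with the sum `ε` and `y₀, b i` with
the sum `-ε`. We prove that the three sums `T₁(j)`, `T₂(-j)`, `D(j)` cannot satisfy the alternative
`T₁(j) ≤ n` or `T₂(-j) ≤ n` or `D(j) ≤ 2 n` for all `j`, when `T₁(1) ≤ n` and `T₂(1) ≤ n`.
-/

set_option autoImplicit false
set_option linter.unusedSectionVars false

namespace Pool.Agent.U68.TP

open Finset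

variable {n : ℕ} [NeZero n]

theorem le_of_cast {x : ZMod n} {z : ℤ} (h : ((z : ℤ) : ZMod n) = x) (h0 : 0 ≤ z) : v x ≤ z := by
  by_contra h1
  have h2 := v_lt x
  have := eq_v h h0 (by omega)
  omega

theorem two_le_of_cast {z : ℤ} (h : ((z : ℤ) : ZMod n) = 0) (h0 : (n : ℤ) < z) : 2 * n ≤ z := by
  obtain ⟨c, hc⟩ := dvd_of_cast h
  have hn := n_pos (n := n)
  have h1 : 2 ≤ c := by
    by_contra h2
    have : (n : ℤ) * c ≤ n * 1 := mul_le_mul_of_nonneg_left (by omega) hn.le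
    omega
  have : (n : ℤ) * 2 ≤ n * c := mul_le_mul_of_nonneg_left h1 hn.le
  omega

theorem v_le_sum {B : Type} [Fintype B] {x z : ZMod n} {c : B → ZMod n} (h : z + ∑ i, c i = x) :
    v x ≤ v z + ∑ i, v (c i) := by
  apply le_of_cast
  · push_cast
    rw [v_cast, ← h]
    congr 1
    exact Finset.sum_congr rfl fun i _ => v_cast _
  · exact add_nonneg (v_nonneg _) (Finset.sum_nonneg fun _ _ => v_nonneg _)

/-- a set with two elements -/
theorem card_two {B : Type} [Fintype B] (h : Fintype.card B = 2) (i : B) :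
    ∃ l, l ≠ i ∧ ∀ g : B → ℤ, ∑ x, g x = g i + g l := by
  classical
  obtain ⟨x, y, hxy, hu⟩ := Finset.card_eq_two.mp ((Finset.card_univ (α := B)).trans h)
  have hi : i ∈ ({x, y} : Finset B) := hu ▸ Finset.mem_univ i
  rcases Finset.mem_insert.mp hi with rfl | hi
  · refine ⟨y, hxy.symm, fun g => ?_⟩
    rw [hu, Finset.sum_pair hxy]
  · rw [Finset.mem_singleton] at hi
    subst hi
    refine ⟨x, hxy, fun g => ?_⟩
    rw [hu, Finset.sum_pair hxy, add_comm]

section sums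

variable {F : Type} [Fintype F] {x₀ : ZMod n} {f : F → ZMod n}

/-- the cases for the number of carries -/
theorem W_cases (x₀ : ZMod n) (f : F → ZMod n) (j : ZMod n) :
    (W x₀ f j = 0 ∧ T x₀ f (j + 1) = T x₀ f j + T x₀ f 1) ∨
    (W x₀ f j = 1 ∧ T x₀ f (j + 1) = T x₀ f j + T x₀ f 1 - n) ∨
    (W x₀ f j = 2 ∧ T x₀ f (j + 1) = T x₀ f j + T x₀ f 1 - 2 * n) ∨
    (3 ≤ W x₀ f j ∧ T x₀ f (j + 1) ≤ T x₀ f j + T x₀ f 1 - 3 * n) := by
  have h1 := T_step x₀ f j
  have h2 := W_nonneg x₀ f j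
  have hn := n_pos (n := n)
  generalize W x₀ f j = w at h1 h2
  by_cases h3 : 3 ≤ w
  · right; right; right
    refine ⟨h3, ?_⟩
    have : (n : ℤ) * 3 ≤ n * w := mul_le_mul_of_nonneg_left h3 hn.le
    omega
  · have h4 : w = 0 ∨ w = 1 ∨ w = 2 := by omega
    rcases h4 with rfl | rfl | rfl <;> omega

theorem T_neg_ge (c : ℤ) {x₀ : ZMod n} {f : F → ZMod n} {j : ZMod n} (h : c ≤ nz x₀ f j) :
    n * c ≤ T x₀ f (-j) + T x₀ f j := by
  rw [T_neg]
  have : (n : ℤ) * c ≤ n * nz x₀ f j := mul_le_mul_of_nonneg_left h (n_pos (n := n)).le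
  omega

theorem exists_killed {x₀ : ZMod n} {f : F → ZMod n} {j : ZMod n} (h0 : j * x₀ ≠ 0)
    (h : nz x₀ f j < 1 + Fintype.card F) : ∃ i, j * f i = 0 := by
  by_contra h1
  push Not at h1
  rw [nz_eq h0 h1] at h
  exact lt_irrefl _ h

theorem ne_zero_of_W_x {j : ZMod n} (hx : x₀ ≠ 0) (h : W x₀ f j ≤ 0) : (j + 1) * x₀ ≠ 0 := by
  rw [add_mul, one_mul]
  exact ne_zero_of_lt (W_zero_x h) hx

theorem ne_zero_of_W_f {j : ZMod n} (hf : ∀ i, f i ≠ 0) (h : W x₀ f j ≤ 0) (i : F) :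
    (j + 1) * f i ≠ 0 := by
  rw [add_mul, one_mul]
  exact ne_zero_of_lt (W_zero_f h i) (hf i)

theorem v_succ {x j : ZMod n} (h : v (j * x) + v x < n) : v ((j + 1) * x) = v (j * x) + v x := by
  rw [add_mul, one_mul]
  exact v_add_of_lt h

/-- a carry exists -/
theorem exists_carry {x₀ : ZMod n} {f : F → ZMod n} {j : ZMod n} (h : 1 ≤ W x₀ f j) :
    (n : ℤ) ≤ v (j * x₀) + v x₀ ∨ ∃ i, (n : ℤ) ≤ v (j * f i) + v (f i) := by
  by_contra h1
  push Not at h1
  have h2 : W x₀ f j = 0 := by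
    unfold W
    rw [wr_eq_zero h1.1, Finset.sum_eq_zero]
    · rfl
    · intro i _
      exact wr_eq_zero (h1.2 i)
  omega

end sums

/-- the data of the reduced lemma -/
structure Sys {F B : Type} [Fintype F] [Fintype B] (x₀ : ZMod n) (f : F → ZMod n) (y₀ : ZMod n)
    (b : B → ZMod n) (ε : ZMod n) : Prop where
  hx : x₀ + ∑ i, f i = ε
  hy : y₀ + ∑ i, b i = -ε
  x0 : x₀ ≠ 0
  y0 : y₀ ≠ 0
  f0 : ∀ i, f i ≠ 0
  b0 : ∀ i, b i ≠ 0
  e0 : ε ≠ 0
  cF : 2 ≤ Fintype.card F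
  cB : 2 ≤ Fintype.card B
  hol : ∀ j : ZMod n, T x₀ f j ≤ n ∨ T y₀ b (-j) ≤ n ∨
    v (j * (x₀ + ∑ i, b i)) + v (-j * ε) + ∑ i, v (j * f i) + ∑ i, v (-j * b i) ≤ 2 * n
  T1 : T x₀ f 1 ≤ n
  T2 : T y₀ b 1 ≤ n

namespace Sys

variable {F B : Type} [Fintype F] [Fintype B] {x₀ : ZMod n} {f : F → ZMod n} {y₀ : ZMod n}
  {b : B → ZMod n} {ε : ZMod n}

theorem swap (S : Sys x₀ f y₀ b ε) : Sys y₀ b x₀ f (-ε) where
  hx := S.hy
  hy := by rw [S.hx, neg_neg]
  x0 := S.y0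
  y0 := S.x0
  f0 := S.b0
  b0 := S.f0
  e0 := neg_ne_zero.mpr S.e0
  cF := S.cB
  cB := S.cF
  hol := by
    intro j
    have h1 : y₀ + ∑ i, f i = -(x₀ + ∑ i, b i) := by
      have h2 := S.hx
      have h3 := S.hy
      have h4 : ∑ i, f i = ε - x₀ := by rw [← h2]; ring
      have h5 : y₀ = -ε - ∑ i, b i := by rw [← h3]; ring
      rw [h4, h5]
      ring
    rcases S.hol (-j) with h | h | h
    · exact Or.inr (Or.inl h)
    · rw [neg_neg] at h
      exact Or.inl h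
    · right; right
      rw [h1]
      rw [show j * -(x₀ + ∑ i, b i) = -j * (x₀ + ∑ i, b i) by ring,
        show -j * -ε = - -j * ε by ring]
      simp only [neg_neg] at h ⊢
      omega
  T1 := S.T2
  T2 := S.T1

theorem e_pos (S : Sys x₀ f y₀ b ε) : 0 < v ε := v_pos S.e0

theorem T1_eq (S : Sys x₀ f y₀ b ε) : T x₀ f 1 = v ε :=
  T_eq (by rw [one_mul, S.hx]) S.T1 S.e0

theorem T2_eq (S : Sys x₀ f y₀ b ε) : T y₀ b 1 = n - v ε := by
  rw [← v_neg S.e0]
  exact T_eq (by rw [one_mul, S.hy]) S.T2 (neg_ne_zero.mpr S.e0)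

theorem III (S : Sys x₀ f y₀ b ε) {j : ZMod n} (h1 : (n : ℤ) < T x₀ f j)
    (h2 : (n : ℤ) < T y₀ b (-j)) :
    T x₀ f j + v (-j * ε) = 2 * n ∧ T y₀ b (-j) + v (-j * ε) = 2 * n ∧
      v (j * (x₀ + ∑ i, b i)) + ∑ i, v (-j * b i) = v (j * x₀) ∧
      v (j * (x₀ + ∑ i, b i)) + ∑ i, v (j * f i) = v (-j * y₀) := by
  have h3 : v (j * (x₀ + ∑ i, b i)) + v (-j * ε) + ∑ i, v (j * f i) + ∑ i, v (-j * b i) ≤ 2 * n := by
    rcases S.hol j with h | h | h
    · exact absurd h1 (not_lt.mpr h)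
    · exact absurd h2 (not_lt.mpr h)
    · exact h
  have g1 : 2 * n ≤ T x₀ f j + v (-j * ε) := by
    apply two_le_of_cast
    · push_cast
      rw [T_cast, v_cast, S.hx]
      ring
    · have := v_nonneg (-j * ε)
      omega
  have g2 : 2 * n ≤ T y₀ b (-j) + v (-j * ε) := by
    apply two_le_of_cast
    · push_cast
      rw [T_cast, v_cast, S.hy]
      ring
    · have := v_nonneg (-j * ε)
      omega
  have l1 : v (j * x₀) ≤ v (j * (x₀ + ∑ i, b i)) + ∑ i, v (-j * b i) := by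
    apply v_le_sum
    rw [← Finset.mul_sum]
    ring
  have l2 : v (-j * y₀) ≤ v (j * (x₀ + ∑ i, b i)) + ∑ i, v (j * f i) := by
    apply v_le_sum
    rw [← Finset.mul_sum]
    have h4 : ∑ i, f i = ε - x₀ := by rw [← S.hx]; ring
    have h5 : y₀ = -ε - ∑ i, b i := by rw [← S.hy]; ring
    rw [h4, h5]
    ring
  unfold T at g1 g2 ⊢
  refine ⟨?_, ?_, ?_, ?_⟩ <;> omega

theorem III_lt (S : Sys x₀ f y₀ b ε) {j : ZMod n} (h1 : (n : ℤ) < T x₀ f j)
    (h2 : (n : ℤ) < T y₀ b (-j)) : T x₀ f j < 2 * n := by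
  obtain ⟨-, -, -, h3⟩ := S.III h1 h2
  have h4 := v_lt (-j * y₀)
  have h5 := v_lt (j * x₀)
  have h6 := v_nonneg (j * (x₀ + ∑ i, b i))
  unfold T
  omega

theorem no_both (S : Sys x₀ f y₀ b ε) {j : ZMod n} (h1 : (n : ℤ) < T x₀ f j)
    (h2 : (n : ℤ) < T y₀ b (-j)) (h3 : (n : ℤ) < T x₀ f (-j)) (h4 : (n : ℤ) < T y₀ b j)
    (hf : ∀ i, j * f i ≠ 0) (hb : ∀ i, j * b i ≠ 0) : False := by
  obtain ⟨-, -, a1, a2⟩ := S.III h1 h2
  obtain ⟨-, -, a3, a4⟩ := S.III (j := -j) h3 (by rw [neg_neg]; exact h4)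
  simp only [neg_neg] at a3 a4
  have b1 : ∑ i, v (j * f i) + ∑ i, v (-j * f i) = n * Fintype.card F := by
    rw [← Finset.sum_add_distrib, Finset.sum_congr rfl (g := fun _ => (n : ℤ))]
    · simp [mul_comm]
    · intro i _
      rw [neg_mul, v_add_neg, nzr_of_ne (hf i), mul_one]
  have b2 : ∑ i, v (j * b i) + ∑ i, v (-j * b i) = n * Fintype.card B := by
    rw [← Finset.sum_add_distrib, Finset.sum_congr rfl (g := fun _ => (n : ℤ))]
    · simp [mul_comm]
    · intro i _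
      rw [neg_mul, v_add_neg, nzr_of_ne (hb i), mul_one]
  have c1 : (n : ℤ) * 2 ≤ n * Fintype.card F :=
    mul_le_mul_of_nonneg_left (by exact_mod_cast S.cF) (n_pos (n := n)).le
  have c2 : (n : ℤ) * 2 ≤ n * Fintype.card B :=
    mul_le_mul_of_nonneg_left (by exact_mod_cast S.cB) (n_pos (n := n)).le
  have d1 := v_nonneg (j * (x₀ + ∑ i, b i))
  have d2 := v_nonneg (-j * (x₀ + ∑ i, b i))
  have e1 := v_lt (j * x₀)
  have e2 := v_lt (-j * x₀)
  have e3 := v_lt (j * y₀)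
  have e4 := v_lt (-j * y₀)
  omega

/-- the first time when the first sum is too large -/
theorem rise (S : Sys x₀ f y₀ b ε) {k : ZMod n} (h1 : T x₀ f k ≤ n) (h2 : T y₀ b k ≤ n)
    (h3 : (n : ℤ) < T x₀ f (k + 1)) :
    W x₀ f k = 0 ∧ W y₀ b k = 1 ∧ T x₀ f k = n ∧ T y₀ b k = n ∧ Fintype.card B = 2 ∧
      (k + 1) * y₀ ≠ 0 ∧
      ∃ i₂, (k + 1) * b i₂ = 0 ∧ ∃ i₁, i₁ ≠ i₂ ∧ (∀ g : B → ℤ, ∑ x, g x = g i₂ + g i₁) ∧
        v (k * b i₁) + v (b i₁) < n ∧ v (k * y₀) + v y₀ < n ∧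
        (n : ℤ) ≤ v ((k + 1) * x₀) + v ((k + 1) * b i₁) := by
  have hT1 := S.T1_eq
  have hT2 := S.T2_eq
  have he := S.e_pos
  have he' := v_lt ε
  have hn := n_pos (n := n)
  have hcF : (2 : ℤ) ≤ Fintype.card F := by exact_mod_cast S.cF
  have hcB : (2 : ℤ) ≤ Fintype.card B := by exact_mod_cast S.cB
  have hW1 : W x₀ f k = 0 ∧ T x₀ f (k + 1) = T x₀ f k + v ε := by
    rcases W_cases x₀ f k with h | h | h | h
    · omega
    · omega
    · omega
    · omega
  obtain ⟨hW1, hm1⟩ := hW1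
  have hx := ne_zero_of_W_x S.x0 hW1.le
  have hf := ne_zero_of_W_f S.f0 hW1.le
  have hnz1 := nz_ge S.x0 S.f0 k
  rw [hW1] at hnz1
  have hneg1 := T_neg_ge 3 (x₀ := x₀) (f := f) (j := k + 1) (by omega)
  have hT2m := T_nonneg y₀ b (k + 1)
  rcases W_cases y₀ b k with ⟨hW2, hm2⟩ | ⟨hW2, hm2⟩ | ⟨hW2, hm2⟩ | ⟨hW2, hm2⟩
  · exfalso
    have hb := ne_zero_of_W_f S.b0 hW2.le
    have hnz2 := nz_ge S.y0 S.b0 k
    rw [hW2] at hnz2
    have hneg2 := T_neg_ge 3 (x₀ := y₀) (f := b) (j := k + 1) (by omega)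
    by_cases h4 : (n : ℤ) < T y₀ b (k + 1)
    · exact S.no_both h3 (by omega) (by omega) h4 hf hb
    · obtain ⟨a1, a2, -, -⟩ := S.III h3 (by omega)
      omega
  · have hnz2 := nz_ge S.y0 S.b0 k
    rw [hW2] at hnz2
    have hneg2 := T_neg_ge 2 (x₀ := y₀) (f := b) (j := k + 1) (by omega)
    obtain ⟨a1, a2, a3, a4⟩ := S.III h3 (by omega)
    have hnz3 : nz y₀ b (k + 1) < 3 := by
      by_contra h5
      have := T_neg_ge 3 (x₀ := y₀) (f := b) (j := k + 1) (by omega)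
      have := v_nonneg (-(k + 1) * ε)
      omega
    have hnz4 : nz y₀ b (k + 1) = 2 := by omega
    have hcB2 : (Fintype.card B : ℤ) = 2 := by omega
    have hneg3 := T_neg y₀ b (k + 1)
    rw [hnz4] at hneg3
    have hy0 : (k + 1) * y₀ ≠ 0 := by
      intro h5
      rw [neg_mul, h5, neg_zero, v_zero] at a4
      have h6 : Nonempty F := by
        rw [← Fintype.card_pos_iff]
        have := S.cF
        omega
      obtain ⟨i⟩ := h6
      have h7 := Finset.single_le_sum (f := fun i => v ((k + 1) * f i))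
        (fun i (_ : i ∈ (Finset.univ : Finset F)) => v_nonneg ((k + 1) * f i)) (Finset.mem_univ i)
      have h8 := v_pos (hf i)
      have h9 := v_nonneg ((k + 1) * (x₀ + ∑ i, b i))
      beta_reduce at h7
      omega
    obtain ⟨i₂, hi₂⟩ := exists_killed (f := b) hy0 (by omega)
    obtain ⟨i₁, hi₁, hsum⟩ := card_two (by exact_mod_cast hcB2) i₂
    have hwr : wr (k * b i₂) (b i₂) = 1 := wr_of_zero (by rw [← hi₂]; ring) (S.b0 i₂)
    have hw0 := W_one_x hW2.le hwr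
    have hw1 := W_one_f hW2.le hwr hi₁
    refine ⟨hW1, hW2, by omega, by omega, by exact_mod_cast hcB2, hy0, i₂, hi₂, i₁, hi₁, hsum,
      hw1, hw0, ?_⟩
    rw [hsum] at a3
    have h5 : v (-(k + 1) * b i₂) = 0 := by rw [neg_mul, hi₂, neg_zero, v_zero]
    have h6 : v (-(k + 1) * b i₁) = n - v ((k + 1) * b i₁) := by
      rw [neg_mul, v_neg]
      rw [add_mul, one_mul]
      exact ne_zero_of_lt hw1 (S.b0 i₁)
    rw [h5, h6] at a3
    have h9 := v_nonneg ((k + 1) * (x₀ + ∑ i, b i))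
    omega
  · omega
  · omega

/-- the second sum is too large for the first time, not the first one -/
theorem event (S : Sys x₀ f y₀ b ε) (h2e : 2 * v ε ≠ n) {k : ℕ} (hk : 1 ≤ k)
    (hA : ∀ j : ℕ, 1 ≤ j → j ≤ k → T x₀ f j ≤ n ∧ T y₀ b j ≤ n)
    (hm : (n : ℤ) < T x₀ f ((k : ZMod n) + 1)) : False := by
  have hT1 := S.T1_eq
  have hT2 := S.T2_eq
  have he := S.e_pos
  have he' := v_lt ε
  have hn := n_pos (n := n)
  have hcF : (2 : ℤ) ≤ Fintype.card F := by exact_mod_cast S.cF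
  have hcB : (2 : ℤ) ≤ Fintype.card B := by exact_mod_cast S.cB
  obtain ⟨hW1, hW2, hk1, hk2, hcB2, hy0, i₂, hi₂, i₁, hi₁, hsum, hw1, hw0, hstar⟩ :=
    S.rise (hA k hk le_rfl).1 (hA k hk le_rfl).2 hm
  have hk2' : k ≠ 1 := by
    intro h
    rw [h, Nat.cast_one] at hk1
    omega
  obtain ⟨l, rfl⟩ : ∃ l : ℕ, k = l + 2 := ⟨k - 2, by omega⟩
  -- the step before
  have hA1 := hA (l + 1) (by omega) (by omega)
  push_cast at hA1 hk1 hk2 hm hW1 hW2 hy0 hi₂ hw1 hw0 hstar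
  have e2 : (l : ZMod n) + 2 = (l + 1) + 1 := by ring
  rw [e2] at hk1 hk2 hm hW1 hW2 hy0 hi₂ hw1 hw0 hstar
  have hV1 : W x₀ f ((l : ZMod n) + 1) = 0 ∧ T x₀ f ((l : ZMod n) + 1) = n - v ε := by
    rcases W_cases x₀ f ((l : ZMod n) + 1) with h | h | h | h <;> omega
  have hV2 : W y₀ b ((l : ZMod n) + 1) = 0 ∧ T y₀ b ((l : ZMod n) + 1) = v ε := by
    rcases W_cases y₀ b ((l : ZMod n) + 1) with h | h | h | h <;> omega
  obtain ⟨hV1, hl1⟩ := hV1
  obtain ⟨hV2, hl2⟩ := hV2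
  have hAtwo := hA 2 (by omega) (by omega)
  have e3 : ((2 : ℕ) : ZMod n) = 1 + 1 := by push_cast; norm_num
  rw [e3] at hAtwo
  -- the carry of the last step is at `i₂`
  have hwr : wr (((l : ZMod n) + 1 + 1) * b i₂) (b i₂) = 1 :=
    wr_of_zero (by rw [← hi₂]; ring) (S.b0 i₂)
  rcases lt_or_gt_of_ne h2e with h | h
  · -- `2 e < n`
    have hU : 1 ≤ W y₀ b 1 := by
      rcases W_cases y₀ b 1 with h | h | h | h <;> omega
    -- the carry in the first step is at `i₂`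
    have hb2 : (n : ℤ) ≤ 2 * v (b i₂) := by
      rcases exists_carry hU with h4 | ⟨i, h4⟩
      · exfalso
        rw [one_mul] at h4
        have h5 := v_succ (W_zero_x hV2.le)
        have h6 := v_nonneg (((l : ZMod n) + 1) * y₀)
        omega
      · rw [one_mul] at h4
        by_cases h7 : i = i₂
        · subst h7
          omega
        · exfalso
          have h5 := v_succ (W_zero_f hV2.le i)
          have h6 := v_nonneg (((l : ZMod n) + 1) * b i)
          have h8 := W_one_f hW2.le hwr h7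
          omega
    have hb3 : v (((l : ZMod n) + 1 + 1) * b i₂) + v (b i₂) = n := by
      have h4 := v_add (((l : ZMod n) + 1 + 1) * b i₂) (b i₂)
      rw [hwr] at h4
      have h5 : ((l : ZMod n) + 1 + 1) * b i₂ + b i₂ = 0 := by rw [← hi₂]; ring
      rw [h5, v_zero] at h4
      omega
    have hb4 : v (((l : ZMod n) + 1 + 1) * b i₂) = v (((l : ZMod n) + 1) * b i₂) + v (b i₂) :=
      v_succ (W_zero_f hV2.le i₂)
    have hb5 : 2 * v (b i₂) = n := by
      have := v_nonneg (((l : ZMod n) + 1) * b i₂)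
      omega
    have hb6 : ((l : ZMod n) + 1) * b i₂ = 0 := by
      rw [← v_eq_zero]
      omega
    have hl0 : l ≠ 0 := by
      rintro rfl
      apply S.b0 i₂
      simpa using hb6
    have hAl := hA l (by omega) (by omega)
    have hX2 : W y₀ b (l : ZMod n) = 1 := by
      have hTl := T_nonneg y₀ b (l : ZMod n)
      rcases W_cases y₀ b (l : ZMod n) with h | h | h | h <;> omega
    have hwr2 : wr ((l : ZMod n) * b i₂) (b i₂) = 1 :=
      wr_of_zero (by rw [← hb6]; ring) (S.b0 i₂)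
    -- `y₀` and `b i₁` grow in the last two steps
    have gy : 2 * v y₀ ≤ v (((l : ZMod n) + 1 + 1) * y₀) := by
      have h5 := v_succ (W_zero_x hV2.le)
      have h6 := v_succ (W_one_x hX2.le hwr2)
      have h7 := v_nonneg ((l : ZMod n) * y₀)
      omega
    have gb : 2 * v (b i₁) ≤ v (((l : ZMod n) + 1 + 1) * b i₁) := by
      have h5 := v_succ (W_zero_f hV2.le i₁)
      have h6 := v_succ (W_one_f hX2.le hwr2 hi₁)
      have h7 := v_nonneg ((l : ZMod n) * b i₁)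
      omega
    have hy1 : v (((l : ZMod n) + 1 + 1 + 1) * y₀) = v (((l : ZMod n) + 1 + 1) * y₀) + v y₀ :=
      v_succ hw0
    have hb1 : v (((l : ZMod n) + 1 + 1 + 1) * b i₁) =
        v (((l : ZMod n) + 1 + 1) * b i₁) + v (b i₁) := v_succ hw1
    have hk3 := hk2
    unfold T at hk3
    rw [hsum] at hk3
    have hpy := v_pos S.y0
    have hpb := v_pos (S.b0 i₁)
    have cy : v (((l : ZMod n) + 1 + 1 + 1) * y₀) + v y₀ < n := by omega
    have cb : v (((l : ZMod n) + 1 + 1 + 1) * b i₁) + v (b i₁) < n := by omega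
    have cb2 : v (((l : ZMod n) + 1 + 1 + 1) * b i₂) + v (b i₂) < n := by
      rw [hi₂, v_zero]
      omega
    have hZ2 : W y₀ b ((l : ZMod n) + 1 + 1 + 1) = 0 := by
      unfold W
      rw [hsum, wr_eq_zero cy, wr_eq_zero cb, wr_eq_zero cb2]
      rfl
    -- the sums at the next step
    have hm2 : T y₀ b ((l : ZMod n) + 1 + 1 + 1) = n - v ε := by
      rcases W_cases y₀ b ((l : ZMod n) + 1 + 1) with h | h | h | h <;> omega
    have hm1 : T x₀ f ((l : ZMod n) + 1 + 1 + 1) = n + v ε := by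
      rcases W_cases x₀ f ((l : ZMod n) + 1 + 1) with h | h | h | h <;> omega
    have ht2 : T y₀ b ((l : ZMod n) + 1 + 1 + 1 + 1) = 2 * n - 2 * v ε := by
      rcases W_cases y₀ b ((l : ZMod n) + 1 + 1 + 1) with h | h | h | h <;> omega
    have hnz2 := nz_ge S.y0 S.b0 ((l : ZMod n) + 1 + 1 + 1)
    rw [hZ2] at hnz2
    have hneg2 := T_neg_ge 3 (x₀ := y₀) (f := b) (j := (l : ZMod n) + 1 + 1 + 1 + 1) (by omega)
    have hbt := ne_zero_of_W_f S.b0 hZ2.le
    have hnz1 := nz_ge S.x0 S.f0 ((l : ZMod n) + 1 + 1 + 1)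
    have hpos := T_nonneg x₀ f ((l : ZMod n) + 1 + 1 + 1 + 1)
    rcases W_cases x₀ f ((l : ZMod n) + 1 + 1 + 1) with ⟨hZ1, ht1⟩ | ⟨hZ1, ht1⟩ | ⟨hZ1, ht1⟩ |
      ⟨hZ1, ht1⟩
    · rw [hZ1] at hnz1
      have hneg1 := T_neg_ge 3 (x₀ := x₀) (f := f) (j := (l : ZMod n) + 1 + 1 + 1 + 1) (by omega)
      have hft := ne_zero_of_W_f S.f0 hZ1.le
      exact S.no_both (j := (l : ZMod n) + 1 + 1 + 1 + 1) (by omega) (by omega) (by omega)
        (by omega) hft hbt
    · rw [hZ1] at hnz1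
      have hneg1 := T_neg_ge 2 (x₀ := x₀) (f := f) (j := (l : ZMod n) + 1 + 1 + 1 + 1) (by omega)
      obtain ⟨a1, a2, a3, a4⟩ := S.III (j := -((l : ZMod n) + 1 + 1 + 1 + 1)) (by omega)
        (by rw [neg_neg]; omega)
      rw [neg_neg] at a1 a3
      have heps : v (((l : ZMod n) + 1 + 1 + 1 + 1) * ε) = 2 * v ε := by
        symm
        apply eq_v
        · push_cast
          rw [v_cast]
          have h5 : ((l : ZMod n) + 1 + 1) * ε = 0 := by
            have h6 := T_cast x₀ f ((l : ZMod n) + 1 + 1)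
            rw [hk1, S.hx] at h6
            rw [← h6]
            simp
          linear_combination -h5
        · omega
        · omega
      have hnz3 : nz x₀ f ((l : ZMod n) + 1 + 1 + 1 + 1) < 3 := by
        by_contra h5
        have := T_neg_ge 3 (x₀ := x₀) (f := f) (j := (l : ZMod n) + 1 + 1 + 1 + 1) (by omega)
        omega
      have hpb1 := v_pos (hbt i₁)
      have hpb2 := v_pos (hbt i₂)
      rw [hsum] at a3
      have hzn := v_nonneg (-((l : ZMod n) + 1 + 1 + 1 + 1) * (x₀ + ∑ i, b i))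
      have hx0 : ((l : ZMod n) + 1 + 1 + 1 + 1) * x₀ ≠ 0 := by
        intro h5
        have h6 : v (-((l : ZMod n) + 1 + 1 + 1 + 1) * x₀) = 0 := by
          rw [neg_mul, h5, neg_zero, v_zero]
        omega
      obtain ⟨i₃, hi₃⟩ := exists_killed (f := f) hx0 (by omega)
      have hwr3 : wr (((l : ZMod n) + 1 + 1 + 1) * f i₃) (f i₃) = 1 :=
        wr_of_zero (by rw [← hi₃]; ring) (S.f0 i₃)
      have hgx := v_succ (W_one_x hZ1.le hwr3)
      have hgb := v_succ cb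
      have h7 : v (-((l : ZMod n) + 1 + 1 + 1 + 1) * x₀) =
          n - v (((l : ZMod n) + 1 + 1 + 1 + 1) * x₀) := by
        rw [neg_mul, v_neg hx0]
      have h8 := v_nonneg x₀
      omega
    · omega
    · omega
  · -- `2 e > n`
    have hU : 1 ≤ W x₀ f 1 := by
      rcases W_cases x₀ f 1 with h | h | h | h <;> omega
    rcases exists_carry hU with h4 | ⟨i, h4⟩
    · rw [one_mul] at h4
      have h5 := v_succ (W_zero_x hV1.le)
      have h6 := W_zero_x hW1.le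
      have h7 := v_nonneg (((l : ZMod n) + 1) * x₀)
      omega
    · rw [one_mul] at h4
      have h5 := v_succ (W_zero_f hV1.le i)
      have h6 := W_zero_f hW1.le i
      have h7 := v_nonneg (((l : ZMod n) + 1) * f i)
      omega

theorem T1_pos_two (S : Sys x₀ f y₀ b ε) {j : ZMod n} (h : W x₀ f j ≤ 2) :
    0 < T x₀ f (j + 1) := by
  apply T_pos
  have h1 := nz_ge S.x0 S.f0 j
  have hcF : (2 : ℤ) ≤ Fintype.card F := by exact_mod_cast S.cF
  omega

/-- the step of the induction when the first sum is too large -/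
theorem half_rise (S : Sys x₀ f y₀ b ε) (h2e : 2 * v ε = n) {j : ZMod n} (h1 : T x₀ f j = n)
    (h2 : T y₀ b j = n) (h3 : (n : ℤ) < T x₀ f (j + 1)) :
    T x₀ f (j + 1 + 1) = n ∧ T y₀ b (j + 1 + 1) = n := by
  have hT1 := S.T1_eq
  have hT2 := S.T2_eq
  have he := S.e_pos
  have hn := n_pos (n := n)
  have hcF : (2 : ℤ) ≤ Fintype.card F := by exact_mod_cast S.cF
  have hcB : (2 : ℤ) ≤ Fintype.card B := by exact_mod_cast S.cB
  obtain ⟨hW1, hW2, hk1, hk2, hcB2, hy0, i₂, hi₂, i₁, hi₁, hsum, hw1, hw0, hstar⟩ :=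
    S.rise h1.le h2.le h3
  have g1 : T x₀ f (j + 1) = n + v ε := by
    rcases W_cases x₀ f j with h | h | h | h <;> omega
  have g2 : T y₀ b (j + 1) = n - v ε := by
    rcases W_cases y₀ b j with h | h | h | h <;> omega
  have g3 : T y₀ b (j + 1 + 1) = n ∧ W y₀ b (j + 1) = 0 := by
    have h5 := T_nonneg y₀ b (j + 1 + 1)
    rcases W_cases y₀ b (j + 1) with h | h | h | h
    · omega
    · exfalso
      have h6 : 0 < T y₀ b (j + 1 + 1) := by
        apply T_pos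
        have h7 : nzr ((j + 1 + 1) * b i₂) = 1 := by
          apply nzr_of_ne
          rw [add_mul, hi₂, zero_add, one_mul]
          exact S.b0 i₂
        unfold nz
        rw [hsum, h7]
        have := nzr_nonneg ((j + 1 + 1) * y₀)
        have := nzr_nonneg ((j + 1 + 1) * b i₁)
        omega
      omega
    · omega
    · omega
  refine ⟨?_, g3.1⟩
  have h5 := T_nonneg x₀ f (j + 1 + 1)
  rcases W_cases x₀ f (j + 1) with h | h | h | h
  · exfalso
    have hnz2 := nz_ge S.y0 S.b0 (j + 1)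
    rw [g3.2] at hnz2
    have hneg2 := T_neg_ge 3 (x₀ := y₀) (f := b) (j := j + 1 + 1) (by omega)
    have := S.III_lt (j := j + 1 + 1) (by omega) (by omega)
    omega
  · omega
  · exfalso
    have := S.T1_pos_two h.1.le
    omega
  · omega

theorem half_step (S : Sys x₀ f y₀ b ε) (h2e : 2 * v ε = n) {j : ZMod n} (h1 : T x₀ f j = n)
    (h2 : T y₀ b j = n) : T x₀ f (j + 1 + 1) = n ∧ T y₀ b (j + 1 + 1) = n := by
  have h2e' : 2 * v (-ε) = n := by
    rw [v_neg S.e0]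
    omega
  by_cases h3 : (n : ℤ) < T x₀ f (j + 1)
  · exact S.half_rise h2e h1 h2 h3
  by_cases h4 : (n : ℤ) < T y₀ b (j + 1)
  · exact (S.swap.half_rise h2e' h2 h1 h4).symm
  have key : ∀ {F B : Type} [Fintype F] [Fintype B] {x₀ : ZMod n} {f : F → ZMod n} {y₀ : ZMod n}
      {b : B → ZMod n} {ε : ZMod n} (S : Sys x₀ f y₀ b ε), 2 * v ε = n → T x₀ f j = n →
      ¬ (n : ℤ) < T x₀ f (j + 1) → T x₀ f (j + 1 + 1) = n := by
    intro F B _ _ x₀ f y₀ b ε S h2e h1 h3
    have hT1 := S.T1_eq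
    have he := S.e_pos
    have hn := n_pos (n := n)
    have g1 : T x₀ f (j + 1) = v ε := by
      have h5 := T_nonneg x₀ f (j + 1)
      rcases W_cases x₀ f j with h | h | h | h <;> omega
    have h5 := T_nonneg x₀ f (j + 1 + 1)
    rcases W_cases x₀ f (j + 1) with h | h | h | h
    · omega
    · exfalso
      have := S.T1_pos_two (j := j + 1) (by omega)
      omega
    · omega
    · omega
  exact ⟨key S h2e h1 h3, key S.swap h2e' h2 h4⟩

theorem half (S : Sys x₀ f y₀ b ε) (h2e : 2 * v ε = n) : False := by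
  have hT1 := S.T1_eq
  have hT2 := S.T2_eq
  have he := S.e_pos
  have hn := n_pos (n := n)
  have hcF : (2 : ℤ) ≤ Fintype.card F := by exact_mod_cast S.cF
  have key : ∀ {F B : Type} [Fintype F] [Fintype B] {x₀ : ZMod n} {f : F → ZMod n} {y₀ : ZMod n}
      {b : B → ZMod n} {ε : ZMod n} (S : Sys x₀ f y₀ b ε), 2 * v ε = n →
      T x₀ f (1 + 1) = n := by
    intro F B _ _ x₀ f y₀ b ε S h2e
    have hT1 := S.T1_eq
    have he := S.e_pos
    have h5 := T_nonneg x₀ f (1 + 1)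
    rcases W_cases x₀ f 1 with h | h | h | h
    · omega
    · exfalso
      have := S.T1_pos_two (j := 1) (by omega)
      omega
    · omega
    · omega
  have h2e' : 2 * v (-ε) = n := by
    rw [v_neg S.e0]
    omega
  have all : ∀ r : ℕ, T x₀ f ((2 * (r + 1) : ℕ) : ZMod n) = n ∧
      T y₀ b ((2 * (r + 1) : ℕ) : ZMod n) = n := by
    intro r
    induction r with
    | zero =>
      have e3 : ((2 * (0 + 1) : ℕ) : ZMod n) = 1 + 1 := by push_cast; norm_num
      rw [e3]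
      exact ⟨key S h2e, key S.swap h2e'⟩
    | succ r ih =>
      have e3 : ((2 * (r + 1 + 1) : ℕ) : ZMod n) = ((2 * (r + 1) : ℕ) : ZMod n) + 1 + 1 := by
        push_cast
        ring
      rw [e3]
      exact S.half_step h2e ih.1 ih.2
  -- `n` is at least 4
  have hve : 2 ≤ v ε := by
    rw [← hT1]
    have h1 : Nonempty F := by
      rw [← Fintype.card_pos_iff]
      have := S.cF
      omega
    obtain ⟨i⟩ := h1
    have h7 := Finset.single_le_sum (f := fun i => v (1 * f i))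
      (fun i (_ : i ∈ (Finset.univ : Finset F)) => v_nonneg (1 * f i)) (Finset.mem_univ i)
    have h8 := v_pos (S.f0 i)
    have h9 := v_pos S.x0
    unfold T
    simp only [one_mul] at h7 ⊢
    omega
  obtain ⟨r, hr⟩ : ∃ r : ℕ, n = 2 * (r + 1) + 2 := ⟨(v ε).toNat - 2, by omega⟩
  have h1 := (all r).1
  have h2 : ((2 * (r + 1) : ℕ) : ZMod n) = -(1 + 1) := by
    have h3 : ((2 * (r + 1) + 2 : ℕ) : ZMod n) = 0 := by
      rw [← hr]
      simp
    push_cast at h3 ⊢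
    linear_combination h3
  rw [h2] at h1
  have h3 := key S h2e
  have h4 : 3 ≤ nz x₀ f (1 + 1) := by
    have h5 := nz_ge S.x0 S.f0 1
    have h6 : W x₀ f 1 = 0 := by
      rcases W_cases x₀ f 1 with h | h | h | h <;> omega
    omega
  have := T_neg_ge 3 h4
  omega

/-- **The reduced numerical lemma.** -/
theorem main (S : Sys x₀ f y₀ b ε) : False := by
  by_cases h2e : 2 * v ε = n
  · exact S.half h2e
  have h2e' : 2 * v (-ε) ≠ n := by
    rw [v_neg S.e0]
    omega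
  classical
  have hT1 := S.T1_eq
  have hT2 := S.T2_eq
  have he := S.e_pos
  have he' := v_lt ε
  have hcF : (2 : ℤ) ≤ Fintype.card F := by exact_mod_cast S.cF
  -- there is a bad time
  have hex : ∃ j : ℕ, 1 ≤ j ∧ ¬ (T x₀ f j ≤ n ∧ T y₀ b j ≤ n) := by
    refine ⟨n - 1, by omega, ?_⟩
    intro h
    have h1 : ((n - 1 : ℕ) : ZMod n) = -1 := by
      rw [Nat.cast_sub (by omega)]
      simp
    rw [h1] at h
    have h2 : nz x₀ f 1 = 1 + Fintype.card F :=
      nz_eq (by rw [one_mul]; exact S.x0) (fun i => by rw [one_mul]; exact S.f0 i)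
    have := T_neg_ge 3 (x₀ := x₀) (f := f) (j := 1) (by omega)
    omega
  have hm := Nat.find_spec hex
  have hmin : ∀ j : ℕ, 1 ≤ j → j < Nat.find hex → T x₀ f j ≤ n ∧ T y₀ b j ≤ n := by
    intro j hj h
    by_contra h1
    exact Nat.find_min hex h ⟨hj, h1⟩
  generalize Nat.find hex = m at hm hmin
  obtain ⟨k, rfl⟩ : ∃ k : ℕ, m = k + 1 := ⟨m - 1, by omega⟩
  have hk : 1 ≤ k := by
    rcases Nat.eq_zero_or_pos k with rfl | h
    · exfalso
      apply hm.2
      simp only [zero_add, Nat.cast_one]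
      exact ⟨S.T1, S.T2⟩
    · exact h
  have hA : ∀ j : ℕ, 1 ≤ j → j ≤ k → T x₀ f j ≤ n ∧ T y₀ b j ≤ n :=
    fun j h1 h2 => hmin j h1 (by omega)
  have hA' : ∀ j : ℕ, 1 ≤ j → j ≤ k → T y₀ b j ≤ n ∧ T x₀ f j ≤ n :=
    fun j h1 h2 => (hA j h1 h2).symm
  have hm2 := hm.2
  push_cast at hm2
  by_cases h1 : (n : ℤ) < T x₀ f ((k : ZMod n) + 1)
  · exact S.event h2e hk hA h1
  · by_cases h2 : (n : ℤ) < T y₀ b ((k : ZMod n) + 1)
    · exact S.swap.event h2e' hk hA' h2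
    · exact hm2 ⟨not_lt.mp h1, not_lt.mp h2⟩

end Sys

end Pool.Agent.U68.TP
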